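import Pool.Agent.Work.MP_55ae8f_al.Data

/-!
# An equally partitioned group of order 3 ^ 9 with a non-abelian component

`G` is the extraspecial group of order `3 ^ 9` and exponent `3`, in the coordinates
`(z, x, y, m)` with `m` in `M = F_3 ^ 6`, and the product
`(v, m) (v', m') = (v + v' - ([v, v'] + om m m') z, m + m')`.

Its 757 components, all of order 27, are
* `H0 = {m = 0}`, the Heisenberg group of order 27, which is not abelian;
* 28 totally isotropic subspaces of `M` (`lineSub`);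
* 728 graphs `{m = z a + x b + y c}` (`graphSub`).
-/

set_option autoImplicit false

namespace Pool.Agent.Work.MP_55ae8f_al

attribute [local irreducible] graphData lineData

instance : Fact (Nat.Prime 3) := ⟨Nat.prime_three⟩

/-- the space `F_3 ^ 6`. -/
abbrev M := Fin 6 → ZMod 3

/-- the standard symplectic form on `F_3 ^ 6`. -/
def om (v w : M) : ZMod 3 :=
  (v 0 * w 1 - v 1 * w 0) + (v 2 * w 3 - v 3 * w 2) + (v 4 * w 5 - v 5 * w 4)

/-- the extraspecial group of order `3 ^ 9` and exponent `3`. -/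
@[ext] structure G where
  z : ZMod 3
  x : ZMod 3
  y : ZMod 3
  m : M

instance : Mul G := ⟨fun g h =>
  ⟨g.z + h.z - (g.x * h.y - g.y * h.x + om g.m h.m), g.x + h.x, g.y + h.y, g.m + h.m⟩⟩
instance : One G := ⟨⟨0, 0, 0, 0⟩⟩
instance : Inv G := ⟨fun g => ⟨-g.z, -g.x, -g.y, -g.m⟩⟩

@[simp] theorem mul_z (g h : G) :
    (g * h).z = g.z + h.z - (g.x * h.y - g.y * h.x + om g.m h.m) := rfl
@[simp] theorem mul_x (g h : G) : (g * h).x = g.x + h.x := rfl
@[simp] theorem mul_y (g h : G) : (g * h).y = g.y + h.y := rfl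
@[simp] theorem mul_m (g h : G) : (g * h).m = g.m + h.m := rfl
@[simp] theorem one_z : (1 : G).z = 0 := rfl
@[simp] theorem one_x : (1 : G).x = 0 := rfl
@[simp] theorem one_y : (1 : G).y = 0 := rfl
@[simp] theorem one_m : (1 : G).m = 0 := rfl
@[simp] theorem inv_z (g : G) : (g⁻¹).z = -g.z := rfl
@[simp] theorem inv_x (g : G) : (g⁻¹).x = -g.x := rfl
@[simp] theorem inv_y (g : G) : (g⁻¹).y = -g.y := rfl
@[simp] theorem inv_m (g : G) : (g⁻¹).m = -g.m := rfl

instance : Group G := Group.ofLeftAxioms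
  (by
    intro a b c
    ext
    · simp only [mul_z, mul_x, mul_y, mul_m, om, Pi.add_apply]; ring
    · simp only [mul_x]; ring
    · simp only [mul_y]; ring
    · simp only [mul_m, Pi.add_apply]; ring)
  (by
    intro a
    ext
    · simp [om]
    · simp
    · simp
    · simp)
  (by
    intro a
    ext
    · simp only [mul_z, inv_z, inv_x, inv_y, inv_m, om, Pi.neg_apply, one_z]; ring
    · simp
    · simp
    · simp)

/-- `G` as a product. -/
def eqvG : G ≃ (ZMod 3 × ZMod 3 × ZMod 3) × M where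
  toFun g := ((g.z, g.x, g.y), g.m)
  invFun p := ⟨p.1.1, p.1.2.1, p.1.2.2, p.2⟩
  left_inv _ := rfl
  right_inv _ := rfl

instance : Finite G := Finite.of_equiv _ eqvG.symm

theorem card_G : Nat.card G = 19683 := by
  rw [Nat.card_congr eqvG]
  simp [Nat.card_eq_fintype_card]

/-- the vector number `k / 12` packed in `e`. -/
def vec (e k : ℕ) : M := fun j => ((dg e (k + 2 * (j : ℕ)) : ℕ) : ZMod 3)

/-- the combination `a v0 + b v1 + c v2` of the vectors packed in `e`. -/
def comb (e : ℕ) (a b c : ZMod 3) : M := a • vec e 0 + b • vec e 12 + c • vec e 24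

/-- base 3 code of a vector. -/
def enc (v : M) : ℕ :=
  (v 0).val + 3 * ((v 1).val + 3 * ((v 2).val + 3 * ((v 3).val + 3 * ((v 4).val
    + 3 * (v 5).val))))

theorem enc_inj {v w : M} (h : enc v = enc w) : v = w := by
  have hv : ∀ j, (v j).val < 3 := fun j => ZMod.val_lt _
  have hw : ∀ j, (w j).val < 3 := fun j => ZMod.val_lt _
  have := hv 0; have := hv 1; have := hv 2; have := hv 3; have := hv 4; have := hv 5
  have := hw 0; have := hw 1; have := hw 2; have := hw 3; have := hw 4; have := hw 5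
  unfold enc at h
  have h0 : (v 0).val = (w 0).val := by omega
  have h1 : (v 1).val = (w 1).val := by omega
  have h2 : (v 2).val = (w 2).val := by omega
  have h3 : (v 3).val = (w 3).val := by omega
  have h4 : (v 4).val = (w 4).val := by omega
  have h5 : (v 5).val = (w 5).val := by omega
  funext j
  apply ZMod.val_injective
  fin_cases j <;> assumption

theorem enc_lt (v : M) : enc v < 729 := by
  have hv : ∀ j, (v j).val < 3 := fun j => ZMod.val_lt _
  have := hv 0; have := hv 1; have := hv 2; have := hv 3; have := hv 4; have := hv 5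
  unfold enc; omega

theorem enc_zero : enc 0 = 0 := by simp [enc]

theorem enc_ne_zero {v : M} (hv : v ≠ 0) : enc v ≠ 0 := by
  intro h; apply hv; apply enc_inj; rw [h, enc_zero]

theorem trit_eq (e : ℕ) (a b c : ZMod 3) (o : ℕ) :
    trit e a.val b.val c.val o = (a * (dg e o : ZMod 3) + b * (dg e (12 + o) : ZMod 3)
      + c * (dg e (24 + o) : ZMod 3)).val := by
  have h : (a * (dg e o : ZMod 3) + b * (dg e (12 + o) : ZMod 3)
      + c * (dg e (24 + o) : ZMod 3)) =
      ((a.val * dg e o + b.val * dg e (12 + o) + c.val * dg e (24 + o) : ℕ) : ZMod 3) := by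
    push_cast
    simp
  rw [h, ZMod.val_natCast]
  rfl

theorem code_eq (e : ℕ) (a b c : ZMod 3) : code e a.val b.val c.val = enc (comb e a b c) := by
  have h : ∀ j : Fin 6, comb e a b c j = a * (dg e (2 * (j : ℕ)) : ZMod 3)
      + b * (dg e (12 + 2 * (j : ℕ)) : ZMod 3) + c * (dg e (24 + 2 * (j : ℕ)) : ZMod 3) := by
    intro j; simp [comb, vec]
  unfold enc
  rw [h 0, h 1, h 2, h 3, h 4, h 5]
  unfold code
  rw [trit_eq, trit_eq, trit_eq, trit_eq, trit_eq, trit_eq]
  rfl

theorem testBit_cover (L : List ℕ) (a b c n : ℕ) :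
    (cover L a b c).testBit n = true ↔ ∃ e ∈ L, code e a b c = n := by
  induction L with
  | nil => simp [cover]
  | cons e es ih =>
    have h : cover (e :: es) a b c = (1 <<< code e a b c) ||| cover es a b c := rfl
    rw [h, Nat.testBit_or, Bool.or_eq_true, ih]
    simp only [List.mem_cons, exists_eq_or_imp]
    apply or_congr _ Iff.rfl
    rw [Nat.one_shiftLeft, Nat.testBit_two_pow]
    simp

theorem mem_triples (a b c : ZMod 3) (h : (a, b, c) ≠ (0, 0, 0)) :
    (a.val, b.val, c.val) ∈ triples := by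
  revert a b c
  decide

theorem testBit_full (n : ℕ) : (2 ^ 729 - 2).testBit n = true ↔ n ≠ 0 ∧ n < 729 := by
  have h : (2 ^ 729 - 2 : ℕ) = (2 ^ 728 - 1) <<< 1 := by decide +kernel
  rw [h, Nat.testBit_shiftLeft, Nat.testBit_two_pow_sub_one]
  simp
  omega

theorem cover_graph' (a b c : ZMod 3) (h : (a, b, c) ≠ (0, 0, 0)) (n : ℕ) :
    (∃ e ∈ graphData, code e a.val b.val c.val = n) ↔ n ≠ 0 ∧ n < 729 := by
  rw [← testBit_cover, ← testBit_full]
  have h1 := List.all_eq_true.mp cover_graph _ (mem_triples a b c h)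
  have h2 : cover graphData a.val b.val c.val = 2 ^ 729 - 2 := Nat.eq_of_beq_eq_true h1
  rw [h2]

theorem exists_graph (a b c : ZMod 3) (h : (a, b, c) ≠ (0, 0, 0)) (w : M) (hw : w ≠ 0) :
    ∃ e ∈ graphData, comb e a b c = w := by
  obtain ⟨e, he, h1⟩ := (cover_graph' a b c h (enc w)).mpr ⟨enc_ne_zero hw, enc_lt w⟩
  refine ⟨e, he, ?_⟩
  rw [code_eq] at h1
  exact enc_inj h1

theorem comb_graph_ne {e : ℕ} (he : e ∈ graphData) (a b c : ZMod 3)
    (h : (a, b, c) ≠ (0, 0, 0)) : comb e a b c ≠ 0 := by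
  intro h0
  have := (cover_graph' a b c h (code e a.val b.val c.val)).mp ⟨e, he, rfl⟩
  rw [code_eq, h0, enc_zero] at this
  exact this.1 rfl

theorem card_ne : Fintype.card {w : M // w ≠ 0} = 728 := by
  rw [Fintype.card_subtype_compl]
  simp

/-- the data of the graph number `i`. -/
def ge (i : Fin 728) : ℕ := graphData.get (i.cast graphData_length.symm)

theorem ge_mem (i : Fin 728) : ge i ∈ graphData := List.get_mem _ _

theorem exists_ge {e : ℕ} (he : e ∈ graphData) : ∃ i, ge i = e := by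
  obtain ⟨j, hj⟩ := List.get_of_mem he
  exact ⟨j.cast graphData_length, hj⟩

theorem graph_bij (a b c : ZMod 3) (h : (a, b, c) ≠ (0, 0, 0)) :
    Function.Injective fun i : Fin 728 => comb (ge i) a b c := by
  let f : Fin 728 → {w : M // w ≠ 0} := fun i => ⟨comb (ge i) a b c, comb_graph_ne (ge_mem i) a b c h⟩
  have hs : Function.Surjective f := by
    rintro ⟨w, hw⟩
    obtain ⟨e, he, h1⟩ := exists_graph a b c h w hw
    obtain ⟨i, rfl⟩ := exists_ge he
    exact ⟨i, Subtype.ext h1⟩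
  have hb : Function.Bijective f := by
    rw [Fintype.bijective_iff_surjective_and_card]
    refine ⟨hs, ?_⟩
    rw [card_ne]; simp
  intro i j hij
  exact hb.1 (Subtype.ext hij)

/-- the data of the line number `i`. -/
def le (i : Fin 28) : ℕ := lineData.get (i.cast lineData_length.symm)

theorem le_mem (i : Fin 28) : le i ∈ lineData := List.get_mem _ _

theorem exists_le {e : ℕ} (he : e ∈ lineData) : ∃ i, le i = e := by
  obtain ⟨j, hj⟩ := List.get_of_mem he
  exact ⟨j.cast lineData_length, hj⟩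

theorem testBit_cover2 (T : List (ℕ × ℕ × ℕ)) (n : ℕ) :
    (T.foldr (fun t acc => Nat.lor (cover lineData t.1 t.2.1 t.2.2) acc) 0).testBit n = true ↔
      ∃ t ∈ T, ∃ e ∈ lineData, code e t.1 t.2.1 t.2.2 = n := by
  induction T with
  | nil => simp
  | cons t T ih =>
    rw [List.foldr_cons]
    have h : ∀ u v : ℕ, Nat.lor u v = u ||| v := fun _ _ => rfl
    rw [h, Nat.testBit_or, Bool.or_eq_true, ih, testBit_cover]
    simp only [List.mem_cons, exists_eq_or_imp]

theorem cover_line' (n : ℕ) :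
    (∃ t ∈ triples, ∃ e ∈ lineData, code e t.1 t.2.1 t.2.2 = n) ↔ n ≠ 0 ∧ n < 729 := by
  rw [← testBit_cover2, ← testBit_full, Nat.eq_of_beq_eq_true cover_line]

theorem of_mem_triples {t : ℕ × ℕ × ℕ} (h : t ∈ triples) :
    ∃ a b c : ZMod 3, (a, b, c) ≠ (0, 0, 0) ∧ t = (a.val, b.val, c.val) := by
  have key : ∀ t ∈ triples, t.1 < 3 ∧ t.2.1 < 3 ∧ t.2.2 < 3 ∧ ¬ (t.1 = 0 ∧ t.2.1 = 0 ∧ t.2.2 = 0) := by
    decide
  obtain ⟨h1, h2, h3, h4⟩ := key t h
  refine ⟨(t.1 : ZMod 3), (t.2.1 : ZMod 3), (t.2.2 : ZMod 3), ?_, ?_⟩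
  · intro h0
    apply h4
    simp only [Prod.mk.injEq] at h0
    have e1 := congrArg ZMod.val h0.1
    have e2 := congrArg ZMod.val h0.2.1
    have e3 := congrArg ZMod.val h0.2.2
    rw [ZMod.val_natCast, Nat.mod_eq_of_lt h1] at e1
    rw [ZMod.val_natCast, Nat.mod_eq_of_lt h2] at e2
    rw [ZMod.val_natCast, Nat.mod_eq_of_lt h3] at e3
    simp at e1 e2 e3
    exact ⟨e1, e2, e3⟩
  · rw [ZMod.val_natCast, ZMod.val_natCast, ZMod.val_natCast, Nat.mod_eq_of_lt h1,
      Nat.mod_eq_of_lt h2, Nat.mod_eq_of_lt h3]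

theorem exists_line (w : M) (hw : w ≠ 0) :
    ∃ a b c : ZMod 3, (a, b, c) ≠ (0, 0, 0) ∧ ∃ e ∈ lineData, comb e a b c = w := by
  obtain ⟨t, ht, e, he, h1⟩ := (cover_line' (enc w)).mpr ⟨enc_ne_zero hw, enc_lt w⟩
  obtain ⟨a, b, c, h2, rfl⟩ := of_mem_triples ht
  refine ⟨a, b, c, h2, e, he, ?_⟩
  rw [code_eq] at h1
  exact enc_inj h1

theorem comb_line_ne {e : ℕ} (he : e ∈ lineData) (a b c : ZMod 3)
    (h : (a, b, c) ≠ (0, 0, 0)) : comb e a b c ≠ 0 := by
  intro h0
  have := (cover_line' (code e a.val b.val c.val)).mp ⟨_, mem_triples a b c h, e, he, rfl⟩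
  rw [code_eq, h0, enc_zero] at this
  exact this.1 rfl

theorem card_ne3 : Fintype.card {t : ZMod 3 × ZMod 3 × ZMod 3 // t ≠ (0, 0, 0)} = 26 := by
  rw [Fintype.card_subtype_compl]
  simp

theorem line_bij :
    Function.Injective fun p : Fin 28 × {t : ZMod 3 × ZMod 3 × ZMod 3 // t ≠ (0, 0, 0)} =>
      comb (le p.1) p.2.1.1 p.2.1.2.1 p.2.1.2.2 := by
  let f : Fin 28 × {t : ZMod 3 × ZMod 3 × ZMod 3 // t ≠ (0, 0, 0)} → {w : M // w ≠ 0} :=
    fun p => ⟨comb (le p.1) p.2.1.1 p.2.1.2.1 p.2.1.2.2, comb_line_ne (le_mem p.1) _ _ _ p.2.2⟩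
  have hs : Function.Surjective f := by
    rintro ⟨w, hw⟩
    obtain ⟨a, b, c, h0, e, he, h1⟩ := exists_line w hw
    obtain ⟨i, rfl⟩ := exists_le he
    exact ⟨(i, ⟨(a, b, c), h0⟩), Subtype.ext h1⟩
  have hb : Function.Bijective f := by
    rw [Fintype.bijective_iff_surjective_and_card]
    refine ⟨hs, ?_⟩
    rw [card_ne, Fintype.card_prod, card_ne3]; simp
  intro i j hij
  exact hb.1 (Subtype.ext hij)

/-! ### the form on the data -/

theorem om_vec (e k l : ℕ) : om (vec e k) (vec e l) = ((form e k l : ℕ) : ZMod 3) := by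
  have h2 : (2 : ZMod 3) = -1 := by decide
  simp only [om, vec, form, ZMod.natCast_mod]
  push_cast
  rw [h2]
  simp only [Fin.isValue, Fin.val_zero, Fin.val_one, Fin.val_two]
  norm_num
  ring

theorem om_graph {e : ℕ} (he : e ∈ graphData) :
    om (vec e 0) (vec e 12) = 0 ∧ om (vec e 0) (vec e 24) = 0 ∧ om (vec e 12) (vec e 24) = -1 := by
  have h := List.all_eq_true.mp form_graph e he
  simp only [Bool.and_eq_true] at h
  rw [om_vec, om_vec, om_vec, Nat.eq_of_beq_eq_true h.1.1, Nat.eq_of_beq_eq_true h.1.2,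
    Nat.eq_of_beq_eq_true h.2]
  decide

theorem om_line {e : ℕ} (he : e ∈ lineData) :
    om (vec e 0) (vec e 12) = 0 ∧ om (vec e 0) (vec e 24) = 0 ∧ om (vec e 12) (vec e 24) = 0 := by
  have h := List.all_eq_true.mp form_line e he
  simp only [Bool.and_eq_true] at h
  rw [om_vec, om_vec, om_vec, Nat.eq_of_beq_eq_true h.1.1, Nat.eq_of_beq_eq_true h.1.2,
    Nat.eq_of_beq_eq_true h.2]
  decide

theorem om_comb (e : ℕ) (a b c a' b' c' : ZMod 3) :
    om (comb e a b c) (comb e a' b' c') =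
      (a * b' - b * a') * om (vec e 0) (vec e 12) + (a * c' - c * a') * om (vec e 0) (vec e 24)
        + (b * c' - c * b') * om (vec e 12) (vec e 24) := by
  simp only [om, comb, Pi.add_apply, Pi.smul_apply, smul_eq_mul]
  ring

theorem comb_add (e : ℕ) (a b c a' b' c' : ZMod 3) :
    comb e (a + a') (b + b') (c + c') = comb e a b c + comb e a' b' c' := by
  simp only [comb, add_smul]; abel

theorem comb_neg (e : ℕ) (a b c : ZMod 3) :
    comb e (-a) (-b) (-c) = - comb e a b c := by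
  simp only [comb, neg_smul]; abel

theorem comb_zero (e : ℕ) : comb e 0 0 0 = 0 := by simp [comb]

/-! ### the components -/

/-- the Heisenberg component. -/
def H0 : Subgroup G where
  carrier := {g | g.m = 0}
  mul_mem' := by intro a b ha hb; simp only [Set.mem_ofPred_eq, mul_m] at *; rw [ha, hb, add_zero]
  one_mem' := rfl
  inv_mem' := by intro a ha; simp only [Set.mem_ofPred_eq, inv_m] at *; rw [ha, neg_zero]

/-- the graph component number `i`. -/
def graphSub (i : Fin 728) : Subgroup G where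
  carrier := {g | g.m = comb (ge i) g.z g.x g.y}
  mul_mem' := by
    intro g h hg hh
    simp only [Set.mem_ofPred_eq, mul_m, mul_z, mul_x, mul_y] at *
    obtain ⟨h1, h2, h3⟩ := om_graph (ge_mem i)
    have key : g.x * h.y - g.y * h.x + om g.m h.m = 0 := by
      rw [hg, hh, om_comb, h1, h2, h3]; ring
    rw [key, sub_zero, comb_add, ← hg, ← hh]
  one_mem' := by
    simp only [Set.mem_ofPred_eq, one_m, one_z, one_x, one_y, comb_zero]
  inv_mem' := by
    intro g hg
    simp only [Set.mem_ofPred_eq, inv_m, inv_z, inv_x, inv_y, comb_neg] at *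
    rw [← hg]

/-- the component number `i` inside `M`. -/
def lineSub (i : Fin 28) : Subgroup G where
  carrier := {g | g.z = 0 ∧ g.x = 0 ∧ g.y = 0 ∧ ∃ a b c : ZMod 3, g.m = comb (le i) a b c}
  mul_mem' := by
    rintro g h ⟨g1, g2, g3, a, b, c, g4⟩ ⟨h1, h2, h3, a', b', c', h4⟩
    obtain ⟨o1, o2, o3⟩ := om_line (le_mem i)
    refine ⟨?_, ?_, ?_, a + a', b + b', c + c', ?_⟩
    · rw [mul_z, g1, g2, g3, h1, h2, h3, g4, h4, om_comb, o1, o2, o3]; ring
    · rw [mul_x, g2, h2, add_zero]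
    · rw [mul_y, g3, h3, add_zero]
    · rw [mul_m, g4, h4, comb_add]
  one_mem' := ⟨rfl, rfl, rfl, 0, 0, 0, by rw [comb_zero]; rfl⟩
  inv_mem' := by
    rintro g ⟨g1, g2, g3, a, b, c, g4⟩
    refine ⟨by rw [inv_z, g1, neg_zero], by rw [inv_x, g2, neg_zero],
      by rw [inv_y, g3, neg_zero], -a, -b, -c, ?_⟩
    rw [inv_m, g4, comb_neg]

theorem mem_H0 {g : G} : g ∈ H0 ↔ g.m = 0 := Iff.rfl
theorem mem_graphSub {i : Fin 728} {g : G} : g ∈ graphSub i ↔ g.m = comb (ge i) g.z g.x g.y :=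
  Iff.rfl
theorem mem_lineSub {i : Fin 28} {g : G} : g ∈ lineSub i ↔
    (g.z = 0 ∧ g.x = 0 ∧ g.y = 0 ∧ ∃ a b c : ZMod 3, g.m = comb (le i) a b c) := Iff.rfl

theorem card_H0 : Nat.card H0 = 27 := by
  let f : H0 ≃ ZMod 3 × ZMod 3 × ZMod 3 :=
    { toFun := fun g => (g.1.z, g.1.x, g.1.y)
      invFun := fun p => ⟨⟨p.1, p.2.1, p.2.2, 0⟩, rfl⟩
      left_inv := by
        rintro ⟨g, hg⟩
        apply Subtype.ext
        rw [mem_H0] at hg
        ext <;> simp [hg]
      right_inv := fun _ => rfl }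
  rw [Nat.card_congr f]
  simp [Nat.card_eq_fintype_card]

theorem card_graphSub (i : Fin 728) : Nat.card (graphSub i) = 27 := by
  let f : graphSub i ≃ ZMod 3 × ZMod 3 × ZMod 3 :=
    { toFun := fun g => (g.1.z, g.1.x, g.1.y)
      invFun := fun p => ⟨⟨p.1, p.2.1, p.2.2, comb (ge i) p.1 p.2.1 p.2.2⟩, rfl⟩
      left_inv := by
        rintro ⟨g, hg⟩
        apply Subtype.ext
        rw [mem_graphSub] at hg
        apply G.ext
        · rfl
        · rfl
        · rfl
        · exact hg.symm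
      right_inv := fun _ => rfl }
  rw [Nat.card_congr f]
  simp [Nat.card_eq_fintype_card]

theorem comb_line_inj (i : Fin 28) {a b c a' b' c' : ZMod 3}
    (h : comb (le i) a b c = comb (le i) a' b' c') : (a, b, c) = (a', b', c') := by
  by_contra hne
  have h1 : comb (le i) (a + -a') (b + -b') (c + -c') = 0 := by
    rw [comb_add, comb_neg, h]; abel
  refine comb_line_ne (le_mem i) _ _ _ ?_ h1
  intro h2
  simp only [Prod.mk.injEq] at h2
  apply hne
  obtain ⟨h3, h4, h5⟩ := h2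
  rw [← sub_eq_add_neg, sub_eq_zero] at h3 h4 h5
  rw [h3, h4, h5]

theorem card_lineSub (i : Fin 28) : Nat.card (lineSub i) = 27 := by
  let f : ZMod 3 × ZMod 3 × ZMod 3 → lineSub i :=
    fun p => ⟨⟨0, 0, 0, comb (le i) p.1 p.2.1 p.2.2⟩, rfl, rfl, rfl, p.1, p.2.1, p.2.2, rfl⟩
  have hf : Function.Bijective f := by
    constructor
    · rintro ⟨a, b, c⟩ ⟨a', b', c'⟩ h
      have h1 := congrArg (fun g : lineSub i => g.1.m) h
      exact comb_line_inj i h1
    · rintro ⟨g, hg⟩
      obtain ⟨g1, g2, g3, a, b, c, g4⟩ := mem_lineSub.mp hg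
      refine ⟨(a, b, c), ?_⟩
      apply Subtype.ext
      apply G.ext
      · exact g1.symm
      · exact g2.symm
      · exact g3.symm
      · exact g4.symm
  rw [← Nat.card_congr (Equiv.ofBijective f hf)]
  simp [Nat.card_eq_fintype_card]

open Classical in
/-- the partition. -/
noncomputable def P : Finset (Subgroup G) :=
  {H0} ∪ (Finset.univ.image lineSub ∪ Finset.univ.image graphSub)

theorem mem_P {H : Subgroup G} :
    H ∈ P ↔ H = H0 ∨ (∃ i, lineSub i = H) ∨ (∃ i, graphSub i = H) := by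
  classical
  simp [P]

theorem card_of_mem_P {H : Subgroup G} (h : H ∈ P) : Nat.card H = 27 := by
  rcases mem_P.mp h with rfl | ⟨i, rfl⟩ | ⟨i, rfl⟩
  · exact card_H0
  · exact card_lineSub i
  · exact card_graphSub i

theorem exists_unique (g : G) (hg : g ≠ 1) : ∃! H : Subgroup G, H ∈ P ∧ g ∈ H := by
  by_cases hm : g.m = 0
  · -- g is in H0
    have hne : (g.z, g.x, g.y) ≠ (0, 0, 0) := by
      intro h
      simp only [Prod.mk.injEq] at h
      exact hg (G.ext h.1 h.2.1 h.2.2 hm)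
    refine ⟨H0, ⟨mem_P.mpr (Or.inl rfl), hm⟩, ?_⟩
    rintro H ⟨hP, hH⟩
    rcases mem_P.mp hP with rfl | ⟨i, rfl⟩ | ⟨i, rfl⟩
    · rfl
    · obtain ⟨h1, h2, h3, -⟩ := mem_lineSub.mp hH
      exact absurd (by rw [h1, h2, h3]) hne
    · rw [mem_graphSub] at hH
      exact absurd (hH.symm.trans hm) (comb_graph_ne (ge_mem i) _ _ _ hne)
  · by_cases hz : (g.z, g.x, g.y) = (0, 0, 0)
    · obtain ⟨a, b, c, h0, e, he, h1⟩ := exists_line g.m hm
      obtain ⟨i, rfl⟩ := exists_le he
      simp only [Prod.mk.injEq] at hz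
      refine ⟨lineSub i, ⟨mem_P.mpr (Or.inr (Or.inl ⟨i, rfl⟩)),
        hz.1, hz.2.1, hz.2.2, a, b, c, h1.symm⟩, ?_⟩
      rintro H ⟨hP, hH⟩
      rcases mem_P.mp hP with rfl | ⟨j, rfl⟩ | ⟨j, rfl⟩
      · exact absurd hH hm
      · obtain ⟨-, -, -, a', b', c', h2⟩ := mem_lineSub.mp hH
        have h0' : (a', b', c') ≠ (0, 0, 0) := by
          intro h3
          simp only [Prod.mk.injEq] at h3
          rw [h3.1, h3.2.1, h3.2.2, comb_zero] at h2
          exact hm h2
        have := @line_bij (i, ⟨(a, b, c), h0⟩) (j, ⟨(a', b', c'), h0'⟩) (h1.trans h2)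
        have h4 : i = j := congrArg Prod.fst this
        rw [h4]
      · rw [mem_graphSub, hz.1, hz.2.1, hz.2.2, comb_zero] at hH
        exact absurd hH hm
    · obtain ⟨e, he, h1⟩ := exists_graph g.z g.x g.y hz g.m hm
      obtain ⟨i, rfl⟩ := exists_ge he
      refine ⟨graphSub i, ⟨mem_P.mpr (Or.inr (Or.inr ⟨i, rfl⟩)), h1.symm⟩, ?_⟩
      rintro H ⟨hP, hH⟩
      rcases mem_P.mp hP with rfl | ⟨j, rfl⟩ | ⟨j, rfl⟩
      · exact absurd hH hm
      · obtain ⟨h1, h2, h3, -⟩ := mem_lineSub.mp hH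
        exact absurd (by rw [h1, h2, h3]) hz
      · rw [mem_graphSub] at hH
        have h4 : i = j := graph_bij _ _ _ hz (h1.trans hH)
        rw [h4]

end Pool.Agent.Work.MP_55ae8f_al
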