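import Pool.Agent.Work.MP_55ae8f_al.Main

/-!
# Extraspecial groups of order `3 ^ (6 n + 3)` with an equal order partition, one component of
which is not abelian

The case `n = 1` is in `Main.lean`. A spread set for the orthogonal sum of `n` copies of
`M = F_3 ^ 6` is built from the one for `M` and the multiplication by the field with 27 elements.
-/

set_option autoImplicit false

namespace Pool.Agent.Work.MP_55ae8f_al.Fam

open Pool.Agent.Work.MP_55ae8f_al

/-! ### the action of the field with 27 elements on `M` -/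

/-- multiplication by an element of order 26 of the field with 27 elements. -/
def sg (v : M) : M :=
  ![-v 2 - v 3, v 3 - v 4, v 0 + v 1 - v 2 + v 4 - v 5, -v 1 - v 3 - v 5, -v 2 + v 3, v 0 + v 3]

@[simp] theorem sg_zero' : sg 0 = 0 := by
  ext i; fin_cases i <;> simp [sg]

/-- the element `a + b s + c s ^ 2` of the field applied to `w`. -/
def fq (a b c : ZMod 3) (w : M) : M := a • w + b • sg w + c • sg (sg w)

theorem sg_add (v w : M) : sg (v + w) = sg v + sg w := by
  ext i; fin_cases i <;> simp [sg] <;> ring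

theorem sg_smul (a : ZMod 3) (w : M) : sg (a • w) = a • sg w := by
  ext i; fin_cases i <;> simp [sg] <;> ring

theorem sg_sub (v w : M) : sg (v - w) = sg v - sg w := by
  ext i; fin_cases i <;> simp [sg] <;> ring

theorem h3 : (3 : ZMod 3) = 0 := by decide

theorem sg_cube (w : M) : sg (sg (sg w)) = (-1 : ZMod 3) • w + (1 : ZMod 3) • sg w
    + (-1 : ZMod 3) • sg (sg w) := by
  have key : ∀ a b c d e f : ZMod 3, sg (sg (sg ![a,b,c,d,e,f])) = (-1 : ZMod 3) • ![a,b,c,d,e,f]
    + (1 : ZMod 3) • sg ![a,b,c,d,e,f] + (-1 : ZMod 3) • sg (sg ![a,b,c,d,e,f]) := by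
    decide +kernel
  have hw : w = ![w 0, w 1, w 2, w 3, w 4, w 5] := by
    ext i; fin_cases i <;> rfl
  rw [hw]
  exact key _ _ _ _ _ _

theorem fq_ne : ∀ (a b c : ZMod 3), (a, b, c) ≠ (0, 0, 0) → ∀ w : M, fq a b c w = 0 → w = 0 := by
  have key : ∀ (a b c : ZMod 3), (a, b, c) ≠ (0, 0, 0) → ∀ u v x y z t : ZMod 3,
      fq a b c ![u,v,x,y,z,t] = 0 → (u = 0 ∧ v = 0 ∧ x = 0 ∧ y = 0 ∧ z = 0 ∧ t = 0) := by
    decide +kernel
  intro a b c h w hw
  have hw' : w = ![w 0, w 1, w 2, w 3, w 4, w 5] := by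
    ext i; fin_cases i <;> rfl
  rw [hw'] at hw
  obtain ⟨h0, h1, h2, h3, h4, h5⟩ := key a b c h _ _ _ _ _ _ hw
  ext i; fin_cases i <;> assumption

theorem om_sg_all : ∀ w : M, om w (sg w) = 0 ∧ om w (sg (sg w)) = 0 ∧ om (sg w) (sg (sg w)) = 0 := by
  have key : ∀ u v x y z t : ZMod 3,
      om ![u,v,x,y,z,t] (sg ![u,v,x,y,z,t]) = 0 ∧ om ![u,v,x,y,z,t] (sg (sg ![u,v,x,y,z,t])) = 0 ∧
      om (sg ![u,v,x,y,z,t]) (sg (sg ![u,v,x,y,z,t])) = 0 := by
    decide +kernel
  intro w
  have hw' : w = ![w 0, w 1, w 2, w 3, w 4, w 5] := by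
    ext i; fin_cases i <;> rfl
  rw [hw']
  exact key _ _ _ _ _ _

theorem fq_sub (a b c : ZMod 3) (v w : M) : fq a b c (v - w) = fq a b c v - fq a b c w := by
  simp only [fq, sg_sub, smul_sub]; abel

theorem fq_add (a b c : ZMod 3) (v w : M) : fq a b c (v + w) = fq a b c v + fq a b c w := by
  simp only [fq, sg_add, smul_add]; abel

theorem fq_smul (a b c t : ZMod 3) (w : M) : fq a b c (t • w) = t • fq a b c w := by
  simp only [fq, sg_smul, smul_add]
  rw [smul_comm a t, smul_comm b t, smul_comm c t]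

theorem fq_inj {a b c : ZMod 3} (h : (a, b, c) ≠ (0, 0, 0)) : Function.Injective (fq a b c) := by
  intro v w hvw
  have h1 : fq a b c (v - w) = 0 := by rw [fq_sub, hvw, sub_self]
  exact sub_eq_zero.mp (fq_ne a b c h _ h1)

theorem fq_surj {a b c : ZMod 3} (h : (a, b, c) ≠ (0, 0, 0)) : Function.Surjective (fq a b c) :=
  Finite.surjective_of_injective (fq_inj h)

theorem sg_fq (a b c : ZMod 3) (w : M) : sg (fq a b c w) = fq (-c) (a + c) (b - c) w := by
  simp only [fq, sg_add, sg_smul, sg_cube]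
  module

theorem fq_fq (a b c a' b' c' : ZMod 3) :
    ∃ a'' b'' c'' : ZMod 3, ∀ w, fq a b c (fq a' b' c' w) = fq a'' b'' c'' w := by
  refine ⟨a * a' + b * (-c') + c * (-(b' - c')), a * b' + b * (a' + c') + c * (-c' + (b' - c')),
    a * c' + b * (b' - c') + c * ((a' + c') - (b' - c')), fun w => ?_⟩
  have h : fq a b c (fq a' b' c' w) = a • fq a' b' c' w + b • sg (fq a' b' c' w)
      + c • sg (sg (fq a' b' c' w)) := rfl
  rw [h, sg_fq, sg_fq]
  simp only [fq]
  module

/-! ### triples of vectors -/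

/-- the combination of a triple of vectors. -/
def cmb (T : M × M × M) (a b c : ZMod 3) : M := a • T.1 + b • T.2.1 + c • T.2.2

theorem cmb_add (T : M × M × M) (a b c a' b' c' : ZMod 3) :
    cmb T (a + a') (b + b') (c + c') = cmb T a b c + cmb T a' b' c' := by
  simp only [cmb, add_smul]; abel

theorem cmb_neg (T : M × M × M) (a b c : ZMod 3) :
    cmb T (-a) (-b) (-c) = - cmb T a b c := by
  simp only [cmb, neg_smul]; abel

theorem cmb_zero (T : M × M × M) : cmb T 0 0 0 = 0 := by simp [cmb]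

theorem zero_cmb (a b c : ZMod 3) : cmb 0 a b c = 0 := by simp [cmb]

theorem om_cmb (T : M × M × M) (a b c a' b' c' : ZMod 3) :
    om (cmb T a b c) (cmb T a' b' c') =
      (a * b' - b * a') * om T.1 T.2.1 + (a * c' - c * a') * om T.1 T.2.2
        + (b * c' - c * b') * om T.2.1 T.2.2 := by
  simp only [om, cmb, Pi.add_apply, Pi.smul_apply, smul_eq_mul]
  ring

/-- the triple number `i` of the spread set of `M`. -/
def tr (i : Fin 728) : M × M × M := (vec (ge i) 0, vec (ge i) 12, vec (ge i) 24)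

theorem cmb_tr (i : Fin 728) (a b c : ZMod 3) : cmb (tr i) a b c = comb (ge i) a b c := rfl

/-- the triple given by a vector and the field with 27 elements. -/
def tw (w : M) : M × M × M := (w, sg w, sg (sg w))

theorem cmb_tw (w : M) (a b c : ZMod 3) : cmb (tw w) a b c = fq a b c w := rfl

theorem om_tr (i : Fin 728) (a b c a' b' c' : ZMod 3) :
    om (cmb (tr i) a b c) (cmb (tr i) a' b' c') = -(b * c' - c * b') := by
  rw [om_cmb]
  obtain ⟨h1, h2, h3⟩ := om_graph (ge_mem i)
  simp only [tr]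
  rw [h1, h2, h3]; ring

theorem om_tw (w : M) (a b c a' b' c' : ZMod 3) :
    om (cmb (tw w) a b c) (cmb (tw w) a' b' c') = 0 := by
  rw [om_cmb]
  obtain ⟨h1, h2, h3⟩ := om_sg_all w
  simp only [tw]
  rw [h1, h2, h3]; ring

theorem om_zero_left (w : M) : om 0 w = 0 := by simp [om]

/-! ### the group -/

variable {n : ℕ}

/-- the orthogonal sum of `n` copies of the symplectic form. -/
def omn (v w : Fin n → M) : ZMod 3 := ∑ i, om (v i) (w i)

theorem om_add_left (u v w : M) : om (u + v) w = om u w + om v w := by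
  simp only [om, Pi.add_apply]; ring
theorem om_add_right (u v w : M) : om u (v + w) = om u v + om u w := by
  simp only [om, Pi.add_apply]; ring
theorem om_self (u : M) : om u u = 0 := by
  simp only [om]; ring
theorem om_neg_left (u v : M) : om (-u) v = -om u v := by
  simp only [om, Pi.neg_apply]; ring
theorem om_swap (u v : M) : om u v = -om v u := by
  simp only [om]; ring

theorem omn_add_left (u v w : Fin n → M) : omn (u + v) w = omn u w + omn v w := by
  simp only [omn, Pi.add_apply, om_add_left, Finset.sum_add_distrib]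
theorem omn_add_right (u v w : Fin n → M) : omn u (v + w) = omn u v + omn u w := by
  simp only [omn, Pi.add_apply, om_add_right, Finset.sum_add_distrib]
theorem omn_self (u : Fin n → M) : omn u u = 0 := by
  simp only [omn, om_self, Finset.sum_const_zero]
theorem omn_neg_left (u v : Fin n → M) : omn (-u) v = -omn u v := by
  simp only [omn, Pi.neg_apply, om_neg_left, Finset.sum_neg_distrib]
theorem omn_swap (u v : Fin n → M) : omn u v = -omn v u := by
  simp only [omn]
  rw [← Finset.sum_neg_distrib]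
  exact Finset.sum_congr rfl fun i _ => om_swap _ _
theorem omn_zero_left (u : Fin n → M) : omn 0 u = 0 := by
  simp [omn, om]
theorem omn_zero_right (u : Fin n → M) : omn u 0 = 0 := by
  simp [omn, om]

/-- the extraspecial group of order `3 ^ (6 n + 3)` and exponent `3`. -/
@[ext] structure E (n : ℕ) where
  z : ZMod 3
  x : ZMod 3
  y : ZMod 3
  m : Fin n → M

instance : Mul (E n) := ⟨fun g h =>
  ⟨g.z + h.z - (g.x * h.y - g.y * h.x + omn g.m h.m), g.x + h.x, g.y + h.y, g.m + h.m⟩⟩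
instance : One (E n) := ⟨⟨0, 0, 0, 0⟩⟩
instance : Inv (E n) := ⟨fun g => ⟨-g.z, -g.x, -g.y, -g.m⟩⟩

@[simp] theorem emul_z (g h : E n) :
    (g * h).z = g.z + h.z - (g.x * h.y - g.y * h.x + omn g.m h.m) := rfl
@[simp] theorem emul_x (g h : E n) : (g * h).x = g.x + h.x := rfl
@[simp] theorem emul_y (g h : E n) : (g * h).y = g.y + h.y := rfl
@[simp] theorem emul_m (g h : E n) : (g * h).m = g.m + h.m := rfl
@[simp] theorem eone_z : (1 : E n).z = 0 := rfl
@[simp] theorem eone_x : (1 : E n).x = 0 := rfl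
@[simp] theorem eone_y : (1 : E n).y = 0 := rfl
@[simp] theorem eone_m : (1 : E n).m = 0 := rfl
@[simp] theorem einv_z (g : E n) : (g⁻¹).z = -g.z := rfl
@[simp] theorem einv_x (g : E n) : (g⁻¹).x = -g.x := rfl
@[simp] theorem einv_y (g : E n) : (g⁻¹).y = -g.y := rfl
@[simp] theorem einv_m (g : E n) : (g⁻¹).m = -g.m := rfl

instance : Group (E n) := Group.ofLeftAxioms
  (by
    intro a b c
    apply E.ext
    · simp only [emul_z, emul_x, emul_y, emul_m, omn_add_left, omn_add_right]; ring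
    · simp only [emul_x]; ring
    · simp only [emul_y]; ring
    · simp only [emul_m]; abel)
  (by
    intro a
    apply E.ext
    · simp [omn_zero_left]
    · simp
    · simp
    · simp)
  (by
    intro a
    apply E.ext
    · simp only [emul_z, einv_z, einv_x, einv_y, einv_m, omn_neg_left, omn_self, eone_z]; ring
    · simp
    · simp
    · simp)

/-- `E n` as a product. -/
def eqvE : E n ≃ (ZMod 3 × ZMod 3 × ZMod 3) × (Fin n → M) where
  toFun g := ((g.z, g.x, g.y), g.m)
  invFun p := ⟨p.1.1, p.1.2.1, p.1.2.2, p.2⟩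
  left_inv _ := rfl
  right_inv _ := rfl

instance : Finite (E n) := Finite.of_equiv _ eqvE.symm

theorem card_E : Nat.card (E n) = 3 ^ (6 * n + 3) := by
  rw [Nat.card_congr eqvE]
  simp only [Nat.card_eq_fintype_card, Fintype.card_prod, ZMod.card, Fintype.card_pi,
    Finset.prod_const, Finset.card_univ, Fintype.card_fin]
  rw [pow_add, pow_mul]
  norm_num [mul_comm]

theorem pow_three (g : E n) : g ^ 3 = 1 := by
  rw [pow_succ, pow_two]
  apply E.ext
  · simp only [emul_z, emul_x, emul_y, emul_m, omn_add_left, omn_self, eone_z]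
    linear_combination g.z * h3
  · simp only [emul_x, eone_x]
    linear_combination g.x * h3
  · simp only [emul_y, eone_y]
    linear_combination g.y * h3
  · simp only [emul_m, eone_m]
    funext i j
    simp only [Pi.add_apply, Pi.zero_apply]
    linear_combination g.m i j * h3

/-! ### the spread set of the sum of `n` copies of `M` -/

/-- the combination of an `n`-tuple of triples. -/
def cmbn (τ : Fin n → M × M × M) (a b c : ZMod 3) : Fin n → M := fun i => cmb (τ i) a b c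

theorem cmbn_add (τ : Fin n → M × M × M) (a b c a' b' c' : ZMod 3) :
    cmbn τ (a + a') (b + b') (c + c') = cmbn τ a b c + cmbn τ a' b' c' := by
  funext i; exact cmb_add _ _ _ _ _ _ _

theorem cmbn_neg (τ : Fin n → M × M × M) (a b c : ZMod 3) :
    cmbn τ (-a) (-b) (-c) = - cmbn τ a b c := by
  funext i; exact cmb_neg _ _ _ _

theorem cmbn_zero (τ : Fin n → M × M × M) : cmbn τ 0 0 0 = 0 := by
  funext i; exact cmb_zero _

/-- the spread set: zero before some place `i`, a triple of the spread set of `M` at `i`, and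
triples from the field with 27 elements after `i`. -/
def SS (n : ℕ) : Set (Fin n → M × M × M) :=
  {τ | ∃ i, (∀ j < i, τ j = 0) ∧ (∃ e, τ i = tr e) ∧ ∀ j, i < j → ∃ w, τ j = tw w}

theorem omn_SS {τ : Fin n → M × M × M} (h : τ ∈ SS n) (a b c a' b' c' : ZMod 3) :
    omn (cmbn τ a b c) (cmbn τ a' b' c') = -(b * c' - c * b') := by
  obtain ⟨i, h1, ⟨e, h2⟩, h4⟩ := h
  rw [omn, Finset.sum_eq_single i]
  · simp only [cmbn, h2]
    exact om_tr _ _ _ _ _ _ _
  · intro j _ hj
    simp only [cmbn]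
    rcases lt_or_gt_of_ne hj with hlt | hgt
    · rw [h1 j hlt, zero_cmb, om_zero_left]
    · obtain ⟨w, hw⟩ := h4 j hgt
      rw [hw, om_tw]
  · intro h
    exact absurd (Finset.mem_univ i) h

theorem exists_SS {a b c : ZMod 3} (h : (a, b, c) ≠ (0, 0, 0)) (m : Fin n → M) (hm : m ≠ 0) :
    ∃ τ ∈ SS n, cmbn τ a b c = m := by
  have hS : {i | m i ≠ 0}.Nonempty := by
    by_contra hne
    apply hm
    funext i
    by_contra hi
    exact hne ⟨i, hi⟩
  obtain ⟨i, hi, hmin⟩ := WellFounded.has_min (wellFounded_lt (α := Fin n)) _ hS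
  have hlt : ∀ j < i, m j = 0 := by
    intro j hj
    by_contra hne
    exact hmin j hne hj
  obtain ⟨e0, he0, he1⟩ := exists_graph a b c h (m i) hi
  obtain ⟨e, rfl⟩ := exists_ge he0
  choose u hu using fun j => fq_surj h (m j)
  refine ⟨fun j => if j < i then 0 else if j = i then tr e else tw (u j), ⟨i, ?_, ⟨e, ?_⟩, ?_⟩, ?_⟩
  · intro j hj
    simp [hj]
  · simp
  · intro j hj
    refine ⟨u j, ?_⟩
    have h1 : ¬ j < i := not_lt.mpr hj.le
    have h2 : j ≠ i := hj.ne'
    simp [h1, h2]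
  · funext j
    simp only [cmbn]
    by_cases h1 : j < i
    · rw [if_pos h1, zero_cmb, hlt j h1]
    · rw [if_neg h1]
      by_cases h2 : j = i
      · rw [if_pos h2, cmb_tr, he1, h2]
      · rw [if_neg h2, cmb_tw, hu]

theorem cmbn_ne {τ : Fin n → M × M × M} (hτ : τ ∈ SS n) {a b c : ZMod 3}
    (h : (a, b, c) ≠ (0, 0, 0)) : cmbn τ a b c ≠ 0 := by
  obtain ⟨i, -, ⟨e, h2⟩, -⟩ := hτ
  intro h0
  have h1 := congrFun h0 i
  simp only [cmbn, h2, cmb_tr, Pi.zero_apply] at h1
  exact comb_graph_ne (ge_mem e) _ _ _ h h1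

theorem SS_inj {τ τ' : Fin n → M × M × M} (hτ : τ ∈ SS n) (hτ' : τ' ∈ SS n) {a b c : ZMod 3}
    (h : (a, b, c) ≠ (0, 0, 0)) (he : cmbn τ a b c = cmbn τ' a b c) : τ = τ' := by
  obtain ⟨i, h1, ⟨e, h2⟩, h4⟩ := hτ
  obtain ⟨i', h1', ⟨e', h2'⟩, h4'⟩ := hτ'
  have hh : ∀ j, cmb (τ j) a b c = cmb (τ' j) a b c := fun j => congrFun he j
  have hii : i = i' := by
    rcases lt_trichotomy i i' with hlt | heq | hgt
    · have := hh i
      rw [h1' i hlt, h2, zero_cmb, cmb_tr] at this
      exact absurd this (comb_graph_ne (ge_mem e) _ _ _ h)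
    · exact heq
    · have := hh i'
      rw [h1 i' hgt, h2', zero_cmb, cmb_tr] at this
      exact absurd this.symm (comb_graph_ne (ge_mem e') _ _ _ h)
  subst hii
  funext j
  rcases lt_trichotomy j i with hlt | heq | hgt
  · rw [h1 j hlt, h1' j hlt]
  · subst heq
    have h5 := hh j
    rw [h2, h2', cmb_tr, cmb_tr] at h5
    have h6 : e = e' := graph_bij _ _ _ h h5
    rw [h2, h2', h6]
  · obtain ⟨w, hw⟩ := h4 j hgt
    obtain ⟨w', hw'⟩ := h4' j hgt
    have h5 := hh j
    rw [hw, hw', cmb_tw, cmb_tw] at h5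
    rw [hw, hw', fq_inj h h5]

/-! ### the lines -/

/-- the field acting on `n`-tuples. -/
def fqn (a b c : ZMod 3) (m : Fin n → M) : Fin n → M := fun i => fq a b c (m i)

theorem omn_fqn (a b c a' b' c' : ZMod 3) (m : Fin n → M) :
    omn (fqn a b c m) (fqn a' b' c' m) = 0 := by
  rw [omn]
  exact Finset.sum_eq_zero fun i _ => om_tw (m i) _ _ _ _ _ _

theorem fqn_add (a b c a' b' c' : ZMod 3) (m : Fin n → M) :
    fqn (a + a') (b + b') (c + c') m = fqn a b c m + fqn a' b' c' m := by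
  funext i; exact cmb_add (tw (m i)) _ _ _ _ _ _

theorem fqn_neg (a b c : ZMod 3) (m : Fin n → M) :
    fqn (-a) (-b) (-c) m = - fqn a b c m := by
  funext i; exact cmb_neg (tw (m i)) _ _ _

theorem fqn_zero (m : Fin n → M) : fqn 0 0 0 m = 0 := by
  funext i; exact cmb_zero (tw (m i))

theorem fqn_one (m : Fin n → M) : fqn 1 0 0 m = m := by
  funext i; simp [fqn, fq]

theorem fqn_ne {a b c : ZMod 3} (h : (a, b, c) ≠ (0, 0, 0)) {m : Fin n → M} (hm : m ≠ 0) :
    fqn a b c m ≠ 0 := by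
  intro h0
  apply hm
  funext i
  exact fq_ne a b c h _ (congrFun h0 i)

theorem fqn_inj {m : Fin n → M} (hm : m ≠ 0) {a b c a' b' c' : ZMod 3}
    (h : fqn a b c m = fqn a' b' c' m) : (a, b, c) = (a', b', c') := by
  by_contra hne
  have h1 : fqn (a + -a') (b + -b') (c + -c') m = 0 := by
    rw [fqn_add, fqn_neg, h]; abel
  refine fqn_ne ?_ hm h1
  intro h2
  simp only [Prod.mk.injEq] at h2
  apply hne
  obtain ⟨h3, h4, h5⟩ := h2
  rw [← sub_eq_add_neg, sub_eq_zero] at h3 h4 h5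
  rw [h3, h4, h5]

/-- the multiples of a vector. -/
def ln (m : Fin n → M) : Set (Fin n → M) := {v | ∃ a b c, v = fqn a b c m}

theorem ncard_ln {m : Fin n → M} (hm : m ≠ 0) : (ln m).ncard = 27 := by
  have h1 : ln m = Set.range fun p : ZMod 3 × ZMod 3 × ZMod 3 => fqn p.1 p.2.1 p.2.2 m := by
    ext v
    constructor
    · rintro ⟨a, b, c, rfl⟩
      exact ⟨(a, b, c), rfl⟩
    · rintro ⟨⟨a, b, c⟩, rfl⟩
      exact ⟨a, b, c, rfl⟩
  rw [h1, ← Set.image_univ, Set.ncard_image_of_injective]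
  · simp [Set.ncard_univ, Nat.card_eq_fintype_card]
  · rintro ⟨a, b, c⟩ ⟨a', b', c'⟩ h
    exact fqn_inj hm h

theorem ln_eq {m v : Fin n → M} (hm : m ≠ 0) (hv : v ≠ 0) (h : v ∈ ln m) : ln v = ln m := by
  apply Set.eq_of_subset_of_ncard_le
  · rintro u ⟨a, b, c, rfl⟩
    obtain ⟨a', b', c', rfl⟩ := h
    obtain ⟨a'', b'', c'', h1⟩ := fq_fq a b c a' b' c'
    exact ⟨a'', b'', c'', funext fun i => h1 (m i)⟩
  · rw [ncard_ln hm, ncard_ln hv]
  · exact Set.toFinite _

/-! ### the components -/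

/-- the Heisenberg component. -/
def H0 (n : ℕ) : Subgroup (E n) where
  carrier := {g | g.m = 0}
  mul_mem' := by intro a b ha hb; simp only [Set.mem_ofPred_eq, emul_m] at *; rw [ha, hb, add_zero]
  one_mem' := rfl
  inv_mem' := by intro a ha; simp only [Set.mem_ofPred_eq, einv_m] at *; rw [ha, neg_zero]

/-- the graph components. -/
def Gr (τ : SS n) : Subgroup (E n) where
  carrier := {g | g.m = cmbn τ.1 g.z g.x g.y}
  mul_mem' := by
    intro g h hg hh
    simp only [Set.mem_ofPred_eq, emul_m, emul_z, emul_x, emul_y] at *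
    have key : g.x * h.y - g.y * h.x + omn g.m h.m = 0 := by
      rw [hg, hh, omn_SS τ.2]; ring
    rw [key, sub_zero, cmbn_add, ← hg, ← hh]
  one_mem' := by
    simp only [Set.mem_ofPred_eq, eone_m, eone_z, eone_x, eone_y, cmbn_zero]
  inv_mem' := by
    intro g hg
    simp only [Set.mem_ofPred_eq, einv_m, einv_z, einv_x, einv_y, cmbn_neg] at *
    rw [← hg]

/-- the line components. -/
def Ln (m : Fin n → M) : Subgroup (E n) where
  carrier := {g | g.z = 0 ∧ g.x = 0 ∧ g.y = 0 ∧ g.m ∈ ln m}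
  mul_mem' := by
    rintro g h ⟨g1, g2, g3, a, b, c, g4⟩ ⟨h1, h2, h3, a', b', c', h4⟩
    refine ⟨?_, ?_, ?_, a + a', b + b', c + c', ?_⟩
    · rw [emul_z, g1, g2, g3, h1, h2, h3, g4, h4, omn_fqn]; ring
    · rw [emul_x, g2, h2, add_zero]
    · rw [emul_y, g3, h3, add_zero]
    · rw [emul_m, g4, h4, fqn_add]
  one_mem' := ⟨rfl, rfl, rfl, 0, 0, 0, by rw [fqn_zero]; rfl⟩
  inv_mem' := by
    rintro g ⟨g1, g2, g3, a, b, c, g4⟩
    refine ⟨by rw [einv_z, g1, neg_zero], by rw [einv_x, g2, neg_zero],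
      by rw [einv_y, g3, neg_zero], -a, -b, -c, ?_⟩
    rw [einv_m, g4, fqn_neg]

theorem mem_H0 {g : E n} : g ∈ H0 n ↔ g.m = 0 := Iff.rfl
theorem mem_Gr {τ : SS n} {g : E n} : g ∈ Gr τ ↔ g.m = cmbn τ.1 g.z g.x g.y := Iff.rfl
theorem mem_Ln {m : Fin n → M} {g : E n} : g ∈ Ln m ↔ (g.z = 0 ∧ g.x = 0 ∧ g.y = 0 ∧ g.m ∈ ln m) :=
  Iff.rfl

theorem card_H0 : Nat.card (H0 n) = 27 := by
  let f : H0 n ≃ ZMod 3 × ZMod 3 × ZMod 3 :=
    { toFun := fun g => (g.1.z, g.1.x, g.1.y)
      invFun := fun p => ⟨⟨p.1, p.2.1, p.2.2, 0⟩, rfl⟩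
      left_inv := by
        rintro ⟨g, hg⟩
        apply Subtype.ext
        rw [mem_H0] at hg
        apply E.ext
        · rfl
        · rfl
        · rfl
        · exact hg.symm
      right_inv := fun _ => rfl }
  rw [Nat.card_congr f]
  simp [Nat.card_eq_fintype_card]

theorem card_Gr (τ : SS n) : Nat.card (Gr τ) = 27 := by
  let f : Gr τ ≃ ZMod 3 × ZMod 3 × ZMod 3 :=
    { toFun := fun g => (g.1.z, g.1.x, g.1.y)
      invFun := fun p => ⟨⟨p.1, p.2.1, p.2.2, cmbn τ.1 p.1 p.2.1 p.2.2⟩, rfl⟩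
      left_inv := by
        rintro ⟨g, hg⟩
        apply Subtype.ext
        rw [mem_Gr] at hg
        apply E.ext
        · rfl
        · rfl
        · rfl
        · exact hg.symm
      right_inv := fun _ => rfl }
  rw [Nat.card_congr f]
  simp [Nat.card_eq_fintype_card]

theorem card_Ln {m : Fin n → M} (hm : m ≠ 0) : Nat.card (Ln m) = 27 := by
  let f : Ln m ≃ ln m :=
    { toFun := fun g => ⟨g.1.m, (mem_Ln.mp g.2).2.2.2⟩
      invFun := fun v => ⟨⟨0, 0, 0, v.1⟩, rfl, rfl, rfl, v.2⟩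
      left_inv := by
        rintro ⟨g, hg⟩
        apply Subtype.ext
        obtain ⟨g1, g2, g3, g4⟩ := mem_Ln.mp hg
        apply E.ext
        · exact g1.symm
        · exact g2.symm
        · exact g3.symm
        · rfl
      right_inv := fun _ => rfl }
  rw [Nat.card_congr f, Nat.card_coe_set_eq, ncard_ln hm]

/-- the partition. -/
noncomputable def P (n : ℕ) : Finset (Subgroup (E n)) :=
  (Set.toFinite {H : Subgroup (E n) | H = H0 n ∨ (∃ m, m ≠ 0 ∧ Ln m = H) ∨ (∃ τ, Gr τ = H)}).toFinset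

theorem mem_P {H : Subgroup (E n)} :
    H ∈ P n ↔ H = H0 n ∨ (∃ m, m ≠ 0 ∧ Ln m = H) ∨ (∃ τ, Gr τ = H) := by
  simp [P]

theorem card_of_mem_P {H : Subgroup (E n)} (h : H ∈ P n) : Nat.card H = 27 := by
  rcases mem_P.mp h with rfl | ⟨m, hm, rfl⟩ | ⟨τ, rfl⟩
  · exact card_H0
  · exact card_Ln hm
  · exact card_Gr τ

theorem exists_unique (g : E n) (hg : g ≠ 1) : ∃! H : Subgroup (E n), H ∈ P n ∧ g ∈ H := by
  by_cases hm : g.m = 0
  · have hne : (g.z, g.x, g.y) ≠ (0, 0, 0) := by
      intro h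
      simp only [Prod.mk.injEq] at h
      exact hg (E.ext h.1 h.2.1 h.2.2 hm)
    refine ⟨H0 n, ⟨mem_P.mpr (Or.inl rfl), hm⟩, ?_⟩
    rintro H ⟨hP, hH⟩
    rcases mem_P.mp hP with rfl | ⟨m, hm', rfl⟩ | ⟨τ, rfl⟩
    · rfl
    · obtain ⟨h1, h2, h3, -⟩ := mem_Ln.mp hH
      exact absurd (by rw [h1, h2, h3]) hne
    · rw [mem_Gr] at hH
      exact absurd (hH.symm.trans hm) (cmbn_ne τ.2 hne)
  · by_cases hz : (g.z, g.x, g.y) = (0, 0, 0)
    · simp only [Prod.mk.injEq] at hz
      refine ⟨Ln g.m, ⟨mem_P.mpr (Or.inr (Or.inl ⟨g.m, hm, rfl⟩)),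
        hz.1, hz.2.1, hz.2.2, 1, 0, 0, (fqn_one _).symm⟩, ?_⟩
      rintro H ⟨hP, hH⟩
      rcases mem_P.mp hP with rfl | ⟨m, hm', rfl⟩ | ⟨τ, rfl⟩
      · exact absurd hH hm
      · obtain ⟨-, -, -, h1⟩ := mem_Ln.mp hH
        have h2 := ln_eq hm' hm h1
        ext k
        rw [mem_Ln, mem_Ln, h2]
      · rw [mem_Gr, hz.1, hz.2.1, hz.2.2, cmbn_zero] at hH
        exact absurd hH hm
    · obtain ⟨τ, hτ, h1⟩ := exists_SS hz g.m hm
      refine ⟨Gr ⟨τ, hτ⟩, ⟨mem_P.mpr (Or.inr (Or.inr ⟨⟨τ, hτ⟩, rfl⟩)), h1.symm⟩, ?_⟩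
      rintro H ⟨hP, hH⟩
      rcases mem_P.mp hP with rfl | ⟨m, hm', rfl⟩ | ⟨τ', rfl⟩
      · exact absurd hH hm
      · obtain ⟨h1, h2, h3, -⟩ := mem_Ln.mp hH
        exact absurd (by rw [h1, h2, h3]) hz
      · rw [mem_Gr] at hH
        have h4 : τ = τ'.1 := SS_inj hτ τ'.2 hz (h1.trans hH)
        subst h4
        rfl

theorem comm_Gr (τ : SS n) {g h : E n} (hg : g ∈ Gr τ) (hh : h ∈ Gr τ) : g * h = h * g := by
  rw [mem_Gr] at hg hh
  apply E.ext
  · simp only [emul_z]
    have k1 : g.x * h.y - g.y * h.x + omn g.m h.m = 0 := by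
      rw [hg, hh, omn_SS τ.2]; ring
    have k2 : h.x * g.y - h.y * g.x + omn h.m g.m = 0 := by
      rw [hg, hh, omn_SS τ.2]; ring
    rw [k1, k2]; ring
  · simp only [emul_x]; ring
  · simp only [emul_y]; ring
  · simp only [emul_m]; abel

theorem comm_Ln (m : Fin n → M) {g h : E n} (hg : g ∈ Ln m) (hh : h ∈ Ln m) : g * h = h * g := by
  obtain ⟨g1, g2, g3, a, b, c, g4⟩ := mem_Ln.mp hg
  obtain ⟨h1, h2, h3, a', b', c', h4⟩ := mem_Ln.mp hh
  apply E.ext
  · simp only [emul_z]
    rw [g1, g2, g3, h1, h2, h3, g4, h4, omn_fqn, omn_fqn]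
  · simp only [emul_x]; ring
  · simp only [emul_y]; ring
  · simp only [emul_m]; abel

theorem one_ne_neg : (-(1 : ZMod 3)) ≠ 1 := by decide

theorem not_comm_H0 : ∃ g ∈ H0 n, ∃ h ∈ H0 n, g * h ≠ h * g := by
  refine ⟨⟨0, 1, 0, 0⟩, rfl, ⟨0, 0, 1, 0⟩, rfl, ?_⟩
  intro h
  have h1 := congrArg E.z h
  simp only [emul_z, omn_zero_left] at h1
  revert h1
  simp
  decide

theorem comm_of_ne {H : Subgroup (E n)} (h : H ∈ P n) (hne : H ≠ H0 n) :
    ∀ x ∈ H, ∀ y ∈ H, x * y = y * x := by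
  intro x hx y hy
  rcases mem_P.mp h with rfl | ⟨m, hm, rfl⟩ | ⟨τ, rfl⟩
  · exact absurd rfl hne
  · exact comm_Ln m hx hy
  · exact comm_Gr τ hx hy

/-! ### the centre -/

theorem comm_iff (g h : E n) : g * h = h * g ↔ g.x * h.y - g.y * h.x + omn g.m h.m = 0 := by
  constructor
  · intro hgh
    have h1 := congrArg E.z hgh
    simp only [emul_z] at h1
    rw [omn_swap h.m g.m] at h1
    have h2 : (g.x * h.y - g.y * h.x + omn g.m h.m) + (g.x * h.y - g.y * h.x + omn g.m h.m) = 0 := by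
      linear_combination -h1
    linear_combination (g.x * h.y - g.y * h.x + omn g.m h.m) * h3 - h2
  · intro h1
    apply E.ext
    · simp only [emul_z]
      rw [omn_swap h.m g.m]
      linear_combination (-2) * h1
    · simp only [emul_x]; ring
    · simp only [emul_y]; ring
    · simp only [emul_m]; abel

theorem om_nondeg {v : M} (h : ∀ w, om v w = 0) : v = 0 := by
  have h0 := h ![1, 0, 0, 0, 0, 0]
  have h1 := h ![0, 1, 0, 0, 0, 0]
  have h2 := h ![0, 0, 1, 0, 0, 0]
  have h3 := h ![0, 0, 0, 1, 0, 0]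
  have h4 := h ![0, 0, 0, 0, 1, 0]
  have h5 := h ![0, 0, 0, 0, 0, 1]
  simp [om] at h0 h1 h2 h3 h4 h5
  ext i
  fin_cases i <;> simp_all

theorem omn_single (v : Fin n → M) (i : Fin n) (w : M) : omn v (Pi.single i w) = om (v i) w := by
  rw [omn, Finset.sum_eq_single i]
  · simp
  · intro j _ hj
    rw [Pi.single_eq_of_ne hj]
    simp [om]
  · intro h; exact absurd (Finset.mem_univ i) h

theorem mem_center_iff (g : E n) : g ∈ Subgroup.center (E n) ↔ g.x = 0 ∧ g.y = 0 ∧ g.m = 0 := by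
  rw [Subgroup.mem_center_iff]
  constructor
  · intro h
    have h1 := (comm_iff _ _).mp (h ⟨0, 1, 0, 0⟩).symm
    have h2 := (comm_iff _ _).mp (h ⟨0, 0, 1, 0⟩).symm
    simp only [omn_zero_right] at h1 h2
    refine ⟨by simpa using h2, by simpa using h1, ?_⟩
    funext i
    apply om_nondeg
    intro w
    have h3 := (comm_iff _ _).mp (h ⟨0, 0, 0, Pi.single i w⟩).symm
    simp only [omn_single] at h3
    simpa using h3
  · rintro ⟨h1, h2, h3⟩ k
    symm
    rw [comm_iff, h1, h2, h3, omn_zero_left]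
    ring

theorem card_center : Nat.card (Subgroup.center (E n)) = 3 := by
  let f : Subgroup.center (E n) ≃ ZMod 3 :=
    { toFun := fun g => g.1.z
      invFun := fun z => ⟨⟨z, 0, 0, 0⟩, (mem_center_iff _).mpr ⟨rfl, rfl, rfl⟩⟩
      left_inv := by
        rintro ⟨g, hg⟩
        apply Subtype.ext
        obtain ⟨h1, h2, h3⟩ := (mem_center_iff _).mp hg
        apply E.ext
        · rfl
        · exact h1.symm
        · exact h2.symm
        · exact h3.symm
      right_inv := fun _ => rfl }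
  rw [Nat.card_congr f]
  simp

open scoped commutatorElement in
theorem commutator_eq_center : commutator (E n) = Subgroup.center (E n) := by
  apply le_antisymm
  · rw [commutator_def, Subgroup.commutator_le]
    intro g _ h _
    rw [mem_center_iff, commutatorElement_def]
    refine ⟨?_, ?_, ?_⟩
    · simp only [emul_x, einv_x]; ring
    · simp only [emul_y, einv_y]; ring
    · simp only [emul_m, einv_m]; abel
  · intro g hg
    obtain ⟨h1, h2, h3⟩ := (mem_center_iff _).mp hg
    have h5 : g = ⁅(⟨0, g.z, 0, 0⟩ : E n), ⟨0, 0, 1, 0⟩⁆ := by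
      rw [commutatorElement_def]
      apply E.ext
      · simp only [emul_z, einv_z, emul_x, emul_y, einv_x, einv_y, emul_m, einv_m, neg_zero,
          add_zero, omn_zero_left]
        linear_combination g.z * Fam.h3
      · rw [h1]; simp
      · rw [h2]; simp
      · rw [h3]; simp
    rw [h5, commutator_def]
    exact Subgroup.commutator_mem_commutator (Subgroup.mem_top _) (Subgroup.mem_top _)

/-! ### counting -/

theorem card_mul {G : Type} [Group G] [Finite G] (P : Finset (Subgroup G)) (q : ℕ)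
    (hP : ∀ g : G, g ≠ 1 → ∃! H : Subgroup G, H ∈ P ∧ g ∈ H)
    (hq : ∀ H ∈ P, Nat.card H = q) : P.card * (q - 1) = Nat.card G - 1 := by
  classical
  have := Fintype.ofFinite G
  have h1 : (Finset.univ.erase (1 : G)) = P.biUnion fun H =>
      (Finset.univ.filter fun g => g ∈ H ∧ g ≠ 1) := by
    ext g
    simp only [Finset.mem_erase, Finset.mem_univ, and_true, Finset.mem_biUnion, Finset.mem_filter,
      true_and]
    constructor
    · intro hg
      obtain ⟨H, ⟨hH, hgH⟩, -⟩ := hP g hg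
      exact ⟨H, hH, hgH, hg⟩
    · rintro ⟨H, -, -, hg⟩
      exact hg
  have h2 : (Finset.univ.erase (1 : G)).card = Nat.card G - 1 := by
    rw [Finset.card_erase_of_mem (Finset.mem_univ _), Finset.card_univ, Nat.card_eq_fintype_card]
  rw [← h2, h1, Finset.card_biUnion]
  · rw [Finset.sum_congr rfl (g := fun _ => q - 1), Finset.sum_const, smul_eq_mul]
    intro H hH
    have h3 : (Finset.univ.filter fun g => g ∈ H ∧ g ≠ 1) =
        (Finset.univ.filter fun g => g ∈ H).erase 1 := by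
      ext g
      simp only [Finset.mem_erase, Finset.mem_filter, Finset.mem_univ, true_and]
      tauto
    rw [h3, Finset.card_erase_of_mem (by simp [H.one_mem]), ← hq H hH]
    congr 1
    rw [Nat.card_eq_fintype_card, Fintype.card_subtype]
  · intro H hH K hK hne
    rw [Function.onFun, Finset.disjoint_left]
    intro g hg hg'
    simp only [Finset.mem_filter, Finset.mem_univ, true_and] at hg hg'
    apply hne
    exact (hP g hg.2).unique ⟨hH, hg.1⟩ ⟨hK, hg'.1⟩

end Pool.Agent.Work.MP_55ae8f_al.Fam
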